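import Pool.Agent.helper29.NS.SpecE

/-!
# Module ns:BB
-/

namespace NS

open MeasureTheory Filter Topology Set

/-- BB -/
theorem BB (hCH : CH_stmt) (hAC : AC_stmt) (hNC : NC_stmt) (hSM : SM_stmt) (hSL : SL_stmt) :
    BB_stmt := by
  intro Ω ν a b m n c θ δ f hΩ hν hDM ha hb hch hcv
  obtain ⟨η1, hη1, -, h1⟩ := hCH Ω c θ δ f hΩ hch hcv
  obtain ⟨ε, hε, h2⟩ := hAC Ω ν a b m n c θ δ f hΩ hν hDM hch hcv
  have hcont : ∃ η2 > 0, ∀ s, |s| < η2 → |f s| < ε / 2 := by
    have hc := hch.smooth.continuous.continuousAt (x := (0 : ℝ))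
    rw [Metric.continuousAt_iff] at hc
    obtain ⟨η2, hη2, h⟩ := hc (ε / 2) (by positivity)
    refine ⟨η2, hη2, fun s hs => ?_⟩
    have := h (x := s) (by rw [Real.dist_eq, sub_zero]; exact hs)
    rwa [hch.f0, Real.dist_eq, sub_zero] at this
  obtain ⟨η2, hη2, h3⟩ := hcont
  -- regularity
  have ha8 : ContDiff ℝ ((7 + 1 : ℕ) : WithTop ℕ∞) a := by exact_mod_cast ha
  have hb8 : ContDiff ℝ ((7 + 1 : ℕ) : WithTop ℕ∞) b := by exact_mod_cast hb
  have hF : ContDiff ℝ ((7 : ℕ) : WithTop ℕ∞) (vort a b) :=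
    (hSM 7 b hb8).2.1.sub (hSM 7 a ha8).2.2.1
  obtain ⟨hF1, hFx, hFy, hFs⟩ := hSM 6 (vort a b) hF
  obtain ⟨hs1, hs2, -⟩ := hFs (by norm_num)
  obtain ⟨hF2, hF1x, hF1y, hF1s⟩ := hSM 5 (dt (vort a b)) hF1
  obtain ⟨hs3, hs4, -⟩ := hF1s (by norm_num)
  -- differentiability
  have dF : Differentiable ℝ (vort a b) := hF.differentiable (by norm_num)
  have dFx : Differentiable ℝ (dx (vort a b)) := hFx.differentiable (by norm_num)
  have dFy : Differentiable ℝ (dy (vort a b)) := hFy.differentiable (by norm_num)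
  have dF1 : Differentiable ℝ (dt (vort a b)) := hF1.differentiable (by norm_num)
  have dF1x : Differentiable ℝ (dx (dt (vort a b))) := hF1x.differentiable (by norm_num)
  have dF1y : Differentiable ℝ (dy (dt (vort a b))) := hF1y.differentiable (by norm_num)
  refine ⟨min η1 (min η2 (ε / 2)), by positivity, fun t s hs => ?_⟩
  have hs' : |s| < η1 ∧ |s| < η2 ∧ |s| < ε / 2 := by
    rw [lt_min_iff, lt_min_iff] at hs
    exact hs
  obtain ⟨a1, a2, a3⟩ := hs'
  have hfr : pt θ c s (f s) ∈ frontier Ω := (h1 s a1).1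
  have hfs := h3 s a2
  have hD : pt θ c s (f s) ∈ Dsc c ε := by
    show (c.1 + s * Real.cos θ - f s * Real.sin θ - c.1) ^ 2 +
      (c.2 + s * Real.sin θ + f s * Real.cos θ - c.2) ^ 2 < ε ^ 2
    have e1 : (c.1 + s * Real.cos θ - f s * Real.sin θ - c.1) ^ 2 +
      (c.2 + s * Real.sin θ + f s * Real.cos θ - c.2) ^ 2 = s ^ 2 + f s ^ 2 := by
      have := Real.sin_sq_add_cos_sq θ
      linear_combination (s ^ 2 + f s ^ 2) * this
    rw [e1]
    have e2 : s ^ 2 < (ε / 2) ^ 2 := sq_lt_sq' (by linarith [(abs_lt.mp a3).1]) (abs_lt.mp a3).2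
    have e3 : f s ^ 2 < (ε / 2) ^ 2 := sq_lt_sq' (by linarith [(abs_lt.mp hfs).1]) (abs_lt.mp hfs).2
    nlinarith
  set q := pt θ c s (f s) with hq
  -- the identities for all times
  have i0 : ∀ t, vort a b (t, q) = vort a b (t, c) := fun t => h2 t q ⟨hfr, hD⟩
  have ix : ∀ t, dx (vort a b) (t, q) = 0 := fun t => (hNC Ω ν a b m n hΩ hν hDM t q hfr).1
  have iy : ∀ t, dy (vort a b) (t, q) = 0 := fun t => (hNC Ω ν a b m n hΩ hν hDM t q hfr).2.1
  have i1 : ∀ t, dt (vort a b) (t, q) = deriv (fun t => vort a b (t, c)) t := by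
    intro t
    rw [← (hSL (vort a b) t q (dF _)).2.2]
    congr 1
    funext t
    exact i0 t
  have i1x : ∀ t, dx (dt (vort a b)) (t, q) = 0 := by
    intro t
    rw [← hs1, ← (hSL (dx (vort a b)) t q (dFx _)).2.2]
    have : (fun t => dx (vort a b) (t, q)) = fun _ => 0 := funext ix
    rw [this, deriv_const]
  have i1y : ∀ t, dy (dt (vort a b)) (t, q) = 0 := by
    intro t
    rw [← hs2, ← (hSL (dy (vort a b)) t q (dFy _)).2.2]
    have : (fun t => dy (vort a b) (t, q)) = fun _ => 0 := funext iy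
    rw [this, deriv_const]
  have i2 : ∀ t, dt (dt (vort a b)) (t, q) = deriv (deriv (fun t => vort a b (t, c))) t := by
    intro t
    rw [← (hSL (dt (vort a b)) t q (dF1 _)).2.2]
    congr 1
    funext t
    exact i1 t
  have i2x : ∀ t, dx (dt (dt (vort a b))) (t, q) = 0 := by
    intro t
    rw [← hs3, ← (hSL (dx (dt (vort a b))) t q (dF1x _)).2.2]
    have : (fun t => dx (dt (vort a b)) (t, q)) = fun _ => 0 := funext i1x
    rw [this, deriv_const]
  have i2y : ∀ t, dy (dt (dt (vort a b))) (t, q) = 0 := by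
    intro t
    rw [← hs4, ← (hSL (dy (dt (vort a b))) t q (dF1y _)).2.2]
    have : (fun t => dy (dt (vort a b)) (t, q)) = fun _ => 0 := funext i1y
    rw [this, deriv_const]
  exact ⟨hfr, i0 t, ix t, iy t, i1 t, i1x t, i1y t, i2 t, i2x t, i2y t⟩

end NS
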