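import Pool.Agent.helper29.NS.SpecE

/-!
# Module ns:HJ
-/

namespace NS

open MeasureTheory Filter Topology Set

/-- linear maps are determined by their values on the basis -/
theorem HJ_ext {E : Type*} [NormedAddCommGroup E] [NormedSpace ℝ E] (f : ℝ × ℝ × ℝ →L[ℝ] E)
    (h1 : f (1, 0, 0) = 0) (h2 : f (0, 1, 0) = 0) (h3 : f (0, 0, 1) = 0) : f = 0 := by
  refine ContinuousLinearMap.ext fun v => ?_
  obtain ⟨a, b, c⟩ := v
  have e : ((a, b, c) : ℝ × ℝ × ℝ) = a • (1, 0, 0) + b • (0, 1, 0) + c • (0, 0, 1) := by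
    simp
  rw [e, map_add, map_add, map_smul, map_smul, map_smul, h1, h2, h3]
  simp

/-- time curve -/
theorem HJ_time {E : Type*} [NormedAddCommGroup E] [NormedSpace ℝ E] {G : ℝ × ℝ × ℝ → E}
    {α β t : ℝ} {q : ℝ × ℝ} (ht : t ∈ Ioo α β) (hG : DifferentiableAt ℝ G (t, q))
    (h0 : ∀ t ∈ Ioo α β, G (t, q) = 0) : fderiv ℝ G (t, q) (1, 0, 0) = 0 := by
  have hγ : HasDerivAt (fun s : ℝ => ((s, q) : ℝ × ℝ × ℝ)) (1, 0, 0) t := by
    have h1 : HasDerivAt (fun s : ℝ => s) 1 t := hasDerivAt_id t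
    have h2 : HasDerivAt (fun _ : ℝ => q) 0 t := hasDerivAt_const t q
    exact h1.prodMk h2
  have h3 : HasDerivAt (fun s : ℝ => G (s, q)) (fderiv ℝ G (t, q) (1, 0, 0)) t :=
    HasFDerivAt.comp_hasDerivAt (f := fun s : ℝ => ((s, q) : ℝ × ℝ × ℝ)) t hG.hasFDerivAt hγ
  have h4 : (fun s : ℝ => G (s, q)) =ᶠ[𝓝 t] fun _ => 0 := by
    filter_upwards [isOpen_Ioo.mem_nhds ht] with s hs
    exact h0 s hs
  have h5 : HasDerivAt (fun s : ℝ => G (s, q)) 0 t :=
    (hasDerivAt_const t (0 : E)).congr_of_eventuallyEq h4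
  exact h3.unique h5

/-- boundary curve -/
theorem HJ_curve {E : Type*} [NormedAddCommGroup E] [NormedSpace ℝ E] {G : ℝ × ℝ × ℝ → E}
    {θ : ℝ} {c : ℝ × ℝ} {f : ℝ → ℝ} (hf : Differentiable ℝ f) {t s η : ℝ} (hs : |s| < η)
    (hG : DifferentiableAt ℝ G (t, pt θ c s (f s)))
    (h0 : ∀ s, |s| < η → G (t, pt θ c s (f s)) = 0) :
    fderiv ℝ G (t, pt θ c s (f s)) (0, (Real.cos θ - deriv f s * Real.sin θ,
      Real.sin θ + deriv f s * Real.cos θ)) = 0 := by
  have hfs : HasDerivAt f (deriv f s) s := (hf s).hasDerivAt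
  have h1 : HasDerivAt (fun s : ℝ => ((t, pt θ c s (f s)) : ℝ × ℝ × ℝ))
      (0, (Real.cos θ - deriv f s * Real.sin θ, Real.sin θ + deriv f s * Real.cos θ)) s := by
    refine (hasDerivAt_const s t).prodMk ?_
    unfold pt
    refine HasDerivAt.prodMk ?_ ?_
    · have k := (((hasDerivAt_id s).mul_const (Real.cos θ)).const_add c.1).sub
        (hfs.mul_const (Real.sin θ))
      rw [one_mul] at k
      exact k
    · have k := (((hasDerivAt_id s).mul_const (Real.sin θ)).const_add c.2).add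
        (hfs.mul_const (Real.cos θ))
      rw [one_mul] at k
      exact k
  have h2 : HasDerivAt (fun s : ℝ => G (t, pt θ c s (f s)))
      (fderiv ℝ G (t, pt θ c s (f s)) (0, (Real.cos θ - deriv f s * Real.sin θ,
        Real.sin θ + deriv f s * Real.cos θ))) s :=
    HasFDerivAt.comp_hasDerivAt (x := s) (f := fun s : ℝ => ((t, pt θ c s (f s)) : ℝ × ℝ × ℝ))
      hG.hasFDerivAt h1
  have h3 : (fun s : ℝ => G (t, pt θ c s (f s))) =ᶠ[𝓝 s] fun _ => 0 := by
    have h4 : ∀ᶠ s' in 𝓝 s, |s'| < η := (continuous_abs.tendsto s).eventually (gt_mem_nhds hs)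
    filter_upwards [h4] with s' hs'
    exact h0 s' hs'
  exact (h2.congr_of_eventuallyEq h3.symm).unique (hasDerivAt_const s (0 : E))

/-- HJ -/
theorem HJ (hFH : FH_stmt) : HJ_stmt := by
  intro Ω c θ δ f α β F hΩ hC hF V hV hyp
  obtain ⟨η0, hη0, ⟨V0, hV0, hcov⟩, hfr⟩ := hFH Ω c θ δ f hΩ hC
  have hfd : Differentiable ℝ f := hC.smooth.differentiable (by norm_num)
  have hF1 : Differentiable ℝ F := hF.differentiable (by norm_num)
  have hG1 : Differentiable ℝ (fderiv ℝ F) :=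
    (hF.fderiv_right (m := 1) (by norm_num)).differentiable (by norm_num)
  -- a small interval
  have hc1 : Continuous fun s : ℝ => pt θ c s (f s) := by
    have := hfd.continuous
    unfold pt
    fun_prop
  have h0 : pt θ c 0 (f 0) = c := by
    rw [hC.f0]
    simp [pt]
  have hVs : ∀ᶠ s in 𝓝 (0 : ℝ), pt θ c s (f s) ∈ V := by
    have h1 := hc1.tendsto 0
    rw [h0] at h1
    exact h1 hV
  obtain ⟨η1, hη1, hball⟩ := Metric.eventually_nhds_iff.mp hVs
  set η := min η0 η1 with hη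
  have hηpos : 0 < η := lt_min hη0 hη1
  have hin : ∀ s, |s| < η → pt θ c s (f s) ∈ frontier Ω ∩ V := by
    intro s hs
    refine ⟨hfr s (lt_of_lt_of_le hs (min_le_left _ _)), hball ?_⟩
    rw [Real.dist_eq, sub_zero]
    exact lt_of_lt_of_le hs (min_le_right _ _)
  have key1 : ∀ t ∈ Ioo α β, ∀ s, |s| < η → fderiv ℝ F (t, pt θ c s (f s)) = 0 := by
    intro t ht s hs
    obtain ⟨h1, h2, h3, h4⟩ := hyp t ht _ (hin s hs)
    refine HJ_ext _ ?_ h2 h3
    exact HJ_time ht (hF1 _) fun t ht => (hyp t ht _ (hin s hs)).1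
  -- the neighbourhood
  have hW : {q : ℝ × ℝ | |(q.1 - c.1) * Real.cos θ + (q.2 - c.2) * Real.sin θ| < η} ∈ 𝓝 c := by
    have hcont : Continuous fun q : ℝ × ℝ =>
        |(q.1 - c.1) * Real.cos θ + (q.2 - c.2) * Real.sin θ| := by fun_prop
    refine (isOpen_lt hcont continuous_const).mem_nhds ?_
    simp only [mem_setOf_eq, sub_self, zero_mul, add_zero, abs_zero]
    exact hηpos
  refine ⟨V0 ∩ {q : ℝ × ℝ | |(q.1 - c.1) * Real.cos θ + (q.2 - c.2) * Real.sin θ| < η},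
    inter_mem hV0 hW, ?_⟩
  rintro t ht q ⟨hq, hqV0, hqW⟩
  obtain ⟨s, -, rfl⟩ := hcov q ⟨hq, hqV0⟩
  have hs : |s| < η := by
    have h1 : ((pt θ c s (f s)).1 - c.1) * Real.cos θ + ((pt θ c s (f s)).2 - c.2) * Real.sin θ
        = s := by
      show (c.1 + s * Real.cos θ - f s * Real.sin θ - c.1) * Real.cos θ +
        (c.2 + s * Real.sin θ + f s * Real.cos θ - c.2) * Real.sin θ = s
      have := Real.sin_sq_add_cos_sq θ
      linear_combination s * this
    have h2 : |((pt θ c s (f s)).1 - c.1) * Real.cos θ +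
      ((pt θ c s (f s)).2 - c.2) * Real.sin θ| < η := hqW
    rwa [h1] at h2
  obtain ⟨h1, h2, h3, h4⟩ := hyp t ht _ (hin s hs)
  refine ⟨h1, key1 t ht s hs, ?_⟩
  set q := pt θ c s (f s) with hqdef
  set B := fderiv ℝ (fderiv ℝ F) (t, q) with hB
  have b1 : B (1, 0, 0) = 0 := HJ_time ht (hG1 _) fun t ht => key1 t ht s hs
  have b2 : B (0, (Real.cos θ - deriv f s * Real.sin θ,
      Real.sin θ + deriv f s * Real.cos θ)) = 0 :=
    HJ_curve hfd hs (hG1 _) fun s hs => key1 t ht s hs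
  have hs' : IsSymmSndFDerivAt ℝ F (t, q) := hF.contDiffAt.isSymmSndFDerivAt (by simp)
  have hsym : ∀ u v, B u v = B v u := fun u v => hs' u v
  have hdir : ∀ u v : ℝ × ℝ × ℝ, fderiv ℝ (fun y => fderiv ℝ F y u) (t, q) v = B v u := by
    intro u v
    have h5 := (hG1 (t, q)).hasFDerivAt.clm_apply (hasFDerivAt_const u (t, q))
    rw [h5.fderiv, ContinuousLinearMap.comp_zero, zero_add]
    rfl
  have hlap : B (0, 1, 0) (0, 1, 0) + B (0, 0, 1) (0, 0, 1) = 0 := by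
    have h5 : lap F (t, q) = fderiv ℝ (fun y => fderiv ℝ F y (0, 1, 0)) (t, q) (0, 1, 0) +
        fderiv ℝ (fun y => fderiv ℝ F y (0, 0, 1)) (t, q) (0, 0, 1) := rfl
    rw [h4, hdir, hdir] at h5
    exact h5.symm
  set u := Real.cos θ - deriv f s * Real.sin θ with hu
  set v := Real.sin θ + deriv f s * Real.cos θ with hv
  have huv : u ^ 2 + v ^ 2 = 1 + deriv f s ^ 2 := by
    rw [hu, hv]
    have := Real.sin_sq_add_cos_sq θ
    linear_combination (1 + deriv f s ^ 2) * this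
  have huvpos : 0 < u ^ 2 + v ^ 2 := by
    rw [huv]
    positivity
  have e1 : ((0, u, v) : ℝ × ℝ × ℝ) = u • (0, 1, 0) + v • (0, 0, 1) := by simp
  rw [e1, map_add, map_smul, map_smul] at b2
  have c1 : u * B (0, 1, 0) (0, 1, 0) + v * B (0, 0, 1) (0, 1, 0) = 0 := by
    have := congrArg (fun f : ℝ × ℝ × ℝ →L[ℝ] ℝ => f (0, 1, 0)) b2
    simpa using this
  have c2 : u * B (0, 1, 0) (0, 0, 1) + v * B (0, 0, 1) (0, 0, 1) = 0 := by
    have := congrArg (fun f : ℝ × ℝ × ℝ →L[ℝ] ℝ => f (0, 0, 1)) b2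
    simpa using this
  have c3 := hsym (0, 1, 0) (0, 0, 1)
  set a := B (0, 1, 0) (0, 1, 0) with ha
  set d := B (0, 0, 1) (0, 0, 1) with hd
  set k := B (0, 0, 1) (0, 1, 0) with hk
  rw [c3] at c2
  have ha0 : a = 0 := by
    have h6 : (u ^ 2 + v ^ 2) * a = 0 := by
      linear_combination u * c1 - v * c2 + v ^ 2 * hlap
    rcases mul_eq_zero.1 h6 with h7 | h7
    · exact absurd h7 huvpos.ne'
    · exact h7
  have hd0 : d = 0 := by linarith
  have hk0 : k = 0 := by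
    rw [ha0] at c1
    rw [hd0] at c2
    have h6 : (u ^ 2 + v ^ 2) * k = 0 := by
      linear_combination v * c1 + u * c2
    rcases mul_eq_zero.1 h6 with h7 | h7
    · exact absurd h7 huvpos.ne'
    · exact h7
  refine HJ_ext _ b1 ?_ ?_
  · refine HJ_ext _ ?_ ha0 ?_
    · rw [hsym, b1]; rfl
    · rw [c3]; exact hk0
  · refine HJ_ext _ ?_ hk0 hd0
    rw [hsym, b1]; rfl

end NS
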