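import Pool.Agent.helper29.NS.SpecE

/-!
# Module ns:HL
-/

namespace NS

open MeasureTheory Filter Topology Set

/-- a function which vanishes on an open set has zero derivatives there -/
theorem HL_zero {O : Set (ℝ × ℝ × ℝ)} (hO : IsOpen O) {f : ℝ × ℝ × ℝ → ℝ}
    (hf : ∀ z ∈ O, f z = 0) : ∀ z ∈ O, dt f z = 0 ∧ dx f z = 0 ∧ dy f z = 0 := by
  intro z hz
  have hev : f =ᶠ[𝓝 z] fun _ => (0 : ℝ) := by
    filter_upwards [hO.mem_nhds hz] with w hw
    exact hf w hw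
  have h0 : fderiv ℝ f z = 0 := by
    rw [hev.fderiv_eq]
    simp
  unfold dt dx dy
  rw [h0]
  simp

/-- derivatives of a difference -/
theorem HL_sub {f g : ℝ × ℝ × ℝ → ℝ} (hf : Differentiable ℝ f) (hg : Differentiable ℝ g) :
    dt (fun z => f z - g z) = (fun z => dt f z - dt g z) ∧
    dx (fun z => f z - g z) = (fun z => dx f z - dx g z) ∧
    dy (fun z => f z - g z) = (fun z => dy f z - dy g z) := by
  refine ⟨?_, ?_, ?_⟩ <;>
  · funext z
    have h : HasFDerivAt (fun z => f z - g z) (fderiv ℝ f z - fderiv ℝ g z) z :=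
      (hf z).hasFDerivAt.sub (hg z).hasFDerivAt
    first
      | (show fderiv ℝ (fun z => f z - g z) z (1, 0, 0) = _
         rw [h.fderiv]; rfl)
      | (show fderiv ℝ (fun z => f z - g z) z (0, 1, 0) = _
         rw [h.fderiv]; rfl)
      | (show fderiv ℝ (fun z => f z - g z) z (0, 0, 1) = _
         rw [h.fderiv]; rfl)

/-- the heat operator of a difference -/
theorem HL_heat_sub (hSM : SM_stmt) (ν : ℝ) {f g : ℝ × ℝ × ℝ → ℝ}
    (hf : ContDiff ℝ ((1 + 1 : ℕ) : WithTop ℕ∞) f) (hg : ContDiff ℝ ((1 + 1 : ℕ) : WithTop ℕ∞) g)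
    (z : ℝ × ℝ × ℝ) : heat ν (fun z => f z - g z) z = heat ν f z - heat ν g z := by
  obtain ⟨-, hfx, hfy, -⟩ := hSM 1 f hf
  obtain ⟨-, hgx, hgy, -⟩ := hSM 1 g hg
  obtain ⟨e1, e2, e3⟩ := HL_sub (hf.differentiable (by norm_num)) (hg.differentiable (by norm_num))
  have e4 := (HL_sub (hfx.differentiable (by norm_num)) (hgx.differentiable (by norm_num))).2.1
  have e5 := (HL_sub (hfy.differentiable (by norm_num)) (hgy.differentiable (by norm_num))).2.2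
  unfold heat
  rw [e1, e2, e3, e4, e5]
  ring

/-- the heat operator commutes with the derivatives -/
theorem HL_comm (hSM : SM_stmt) (ν : ℝ) (f : ℝ × ℝ × ℝ → ℝ)
    (hf : ContDiff ℝ ((3 + 1 : ℕ) : WithTop ℕ∞) f) :
    dt (heat ν f) = heat ν (dt f) ∧ dx (heat ν f) = heat ν (dx f) ∧
      dy (heat ν f) = heat ν (dy f) := by
  obtain ⟨ht, hx, hy, hs⟩ := hSM 3 f hf
  obtain ⟨s1, s2, s3⟩ := hs (by norm_num)
  obtain ⟨-, hxx, -, hs'⟩ := hSM 2 (dx f) hx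
  obtain ⟨s4, s5, s6⟩ := hs' (by norm_num)
  obtain ⟨-, -, hyy, hs''⟩ := hSM 2 (dy f) hy
  obtain ⟨s7, s8, s9⟩ := hs'' (by norm_num)
  have key : ∀ z, HasFDerivAt (heat ν f) (fderiv ℝ (dt f) z -
      ν • (fderiv ℝ (dx (dx f)) z + fderiv ℝ (dy (dy f)) z)) z := by
    intro z
    exact ((ht.differentiable (by norm_num)) z).hasFDerivAt.sub
      ((((hxx.differentiable (by norm_num)) z).hasFDerivAt.add
        ((hyy.differentiable (by norm_num)) z).hasFDerivAt).const_mul ν)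
  refine ⟨?_, ?_, ?_⟩
  · funext z
    have h1 : dt (heat ν f) z = dt (dt f) z - ν * (dt (dx (dx f)) z + dt (dy (dy f)) z) := by
      show fderiv ℝ (heat ν f) z (1, 0, 0) = _
      rw [(key z).fderiv]
      rfl
    rw [h1, s4, s1, s8, s2]
    rfl
  · funext z
    have h1 : dx (heat ν f) z = dx (dt f) z - ν * (dx (dx (dx f)) z + dx (dy (dy f)) z) := by
      show fderiv ℝ (heat ν f) z (0, 1, 0) = _
      rw [(key z).fderiv]
      rfl
    rw [h1, ← s1, s9, s3]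
    rfl
  · funext z
    have h1 : dy (heat ν f) z = dy (dt f) z - ν * (dy (dx (dx f)) z + dy (dy (dy f)) z) := by
      show fderiv ℝ (heat ν f) z (0, 0, 1) = _
      rw [(key z).fderiv]
      rfl
    rw [h1, ← s2, ← s6, ← s3]
    rfl

/-- HL -/
theorem HL (hSM : SM_stmt) : HL_stmt := by
  intro Ω U ν α β G a b m n hU hUΩ hDM ha hb hG hmn
  have hO : IsOpen (Ioo α β ×ˢ U) := isOpen_Ioo.prod hU
  have hm0 : ∀ z ∈ Ioo α β ×ˢ U, m z = 0 := fun z hz => (hmn z.1 hz.1 z.2 hz.2).1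
  have hn0 : ∀ z ∈ Ioo α β ×ˢ U, n z = 0 := fun z hz => (hmn z.1 hz.1 z.2 hz.2).2
  have hm1 := HL_zero hO hm0
  have hn1 := HL_zero hO hn0
  have hv0 : ∀ z ∈ Ioo α β ×ˢ U, vort m n z = 0 := fun z hz => by
    show dx n z - dy m z = 0
    rw [(hn1 z hz).2.1, (hm1 z hz).2.2, sub_zero]
  have hv1 := HL_zero hO hv0
  have hvx := HL_zero hO (fun z hz => (hv1 z hz).2.1)
  have hvy := HL_zero hO (fun z hz => (hv1 z hz).2.2)
  have hha : ∀ z ∈ Ioo α β ×ˢ U, heat ν a z = 0 := by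
    rintro ⟨t, q⟩ hz
    have h := hDM.ea t q (hUΩ hz.2)
    rw [hm0 _ hz, hn0 _ hz, (hm1 _ hz).2.1, (hm1 _ hz).2.2] at h
    show dt a (t, q) - ν * (dx (dx a) (t, q) + dy (dy a) (t, q)) = 0
    linarith
  have hhb : ∀ z ∈ Ioo α β ×ˢ U, heat ν b z = 0 := by
    rintro ⟨t, q⟩ hz
    have h := hDM.eb t q (hUΩ hz.2)
    rw [hm0 _ hz, hn0 _ hz, (hn1 _ hz).2.1, (hn1 _ hz).2.2] at h
    show dt b (t, q) - ν * (dx (dx b) (t, q) + dy (dy b) (t, q)) = 0
    linarith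
  -- regularity
  have ha8 : ContDiff ℝ ((7 + 1 : ℕ) : WithTop ℕ∞) a := by exact_mod_cast ha
  have hb8 : ContDiff ℝ ((7 + 1 : ℕ) : WithTop ℕ∞) b := by exact_mod_cast hb
  have hay := (hSM 7 a ha8).2.2.1
  have hbx := (hSM 7 b hb8).2.1
  have hF : ContDiff ℝ ((7 : ℕ) : WithTop ℕ∞) (vort a b) := hbx.sub hay
  have hhv : ∀ z ∈ Ioo α β ×ˢ U, heat ν (vort a b) z = 0 := by
    intro z hz
    have e1 : heat ν (vort a b) z = heat ν (dx b) z - heat ν (dy a) z :=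
      HL_heat_sub hSM ν (hbx.of_le (by norm_cast)) (hay.of_le (by norm_cast)) z
    rw [e1, ← (HL_comm hSM ν b (hb8.of_le (by norm_cast))).2.1,
      ← (HL_comm hSM ν a (ha8.of_le (by norm_cast))).2.2,
      (HL_zero hO hhb z hz).2.1, (HL_zero hO hha z hz).2.2, sub_zero]
  have hhd : ∀ z ∈ Ioo α β ×ˢ U, heat ν (dt (vort a b)) z = 0 := by
    intro z hz
    rw [← (HL_comm hSM ν (vort a b) (hF.of_le (by norm_cast))).1]
    exact (HL_zero hO hhv z hz).1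
  intro t ht q hq
  have hz : (t, q) ∈ Ioo α β ×ˢ U := ⟨ht, hq⟩
  refine ⟨hha _ hz, hhb _ hz, hhv _ hz, hhd _ hz, ?_⟩
  have h := hG t q (hUΩ hq)
  rw [(hv1 _ hz).1, (hv1 _ hz).2.1, (hv1 _ hz).2.2, (hvx _ hz).2.1, (hvy _ hz).2.2] at h
  linarith

end NS
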