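import Pool.Agent.helper29.NS.SpecE

/-!
# Module ns:JC
-/

namespace NS

open MeasureTheory Filter Topology Set

theorem JC_aux (η : ℝ) (j : ℕ) : ∀ (k : ℕ) (H : ℝ × ℝ → ℝ), ContDiff ℝ k H →
    (∀ s r, |s| < η → 0 < r → r < η → H (s, r) = 0) → j ≤ k →
    Continuous (py^[j] H) ∧ ∀ s r, |s| < η → 0 < r → r < η → (py^[j] H) (s, r) = 0 := by
  induction j with
  | zero =>
    intro k H hH h0 _
    exact ⟨hH.continuous, h0⟩
  | succ j ih =>
    intro k H hH h0 hj
    obtain ⟨k, rfl⟩ : ∃ k', k = k' + 1 := ⟨k - 1, by omega⟩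
    rw [Function.iterate_succ_apply]
    refine ih k (py H) ?_ ?_ (by omega)
    · have h1 : ContDiff ℝ k (fderiv ℝ H) := hH.fderiv_right (by norm_cast)
      exact h1.clm_apply contDiff_const
    · intro s r hs hr hr'
      have hev : H =ᶠ[𝓝 (s, r)] fun _ => (0 : ℝ) := by
        have hO : IsOpen {z : ℝ × ℝ | |z.1| < η ∧ 0 < z.2 ∧ z.2 < η} :=
          (isOpen_lt (continuous_abs.comp continuous_fst) continuous_const).inter
            ((isOpen_lt continuous_const continuous_snd).inter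
              (isOpen_lt continuous_snd continuous_const))
        filter_upwards [hO.mem_nhds ⟨hs, hr, hr'⟩] with z hz
        exact h0 z.1 z.2 hz.1 hz.2.1 hz.2.2
      show fderiv ℝ H (s, r) (0, 1) = 0
      rw [hev.fderiv_eq]
      simp

/-- JC -/
theorem JC : JC_stmt := by
  intro k η H hH h0 j hj s hs
  have hη : 0 < η := lt_of_le_of_lt (abs_nonneg s) hs
  obtain ⟨h1, h2⟩ := JC_aux η j k H hH h0 hj
  show (py^[j] H) (s, 0) = 0
  have t1 : Tendsto (fun r : ℝ => (py^[j] H) (s, r)) (𝓝[>] 0) (𝓝 ((py^[j] H) (s, 0))) :=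
    ((h1.comp (Continuous.prodMk_right s)).tendsto 0).mono_left nhdsWithin_le_nhds
  have t2 : Tendsto (fun r : ℝ => (py^[j] H) (s, r)) (𝓝[>] 0) (𝓝 0) := by
    refine tendsto_const_nhds.congr' ?_
    filter_upwards [Ioo_mem_nhdsGT hη] with r hr
    exact (h2 s r hs hr.1 hr.2).symm
  exact tendsto_nhds_unique t1 t2

end NS
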