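import Pool.Agent.helper29.NS.SpecC

/-!
# Module ns:PG (MP_b9b054_an): the gradient of the difference on the inner circle of a swept annulus
-/

namespace NS

open MeasureTheory Filter Topology Set

/-- The space rotation by `-θ` as a continuous linear map of space-time. -/
noncomputable def PG_L (θ : ℝ) : (ℝ × ℝ × ℝ) →L[ℝ] (ℝ × ℝ × ℝ) :=
  (ContinuousLinearMap.fst ℝ ℝ (ℝ × ℝ)).prod
    (((Real.cos (-θ)) • ((ContinuousLinearMap.fst ℝ ℝ ℝ).comp
        (ContinuousLinearMap.snd ℝ ℝ (ℝ × ℝ)))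
      - (Real.sin (-θ)) • ((ContinuousLinearMap.snd ℝ ℝ ℝ).comp
        (ContinuousLinearMap.snd ℝ ℝ (ℝ × ℝ)))).prod
     ((Real.sin (-θ)) • ((ContinuousLinearMap.fst ℝ ℝ ℝ).comp
        (ContinuousLinearMap.snd ℝ ℝ (ℝ × ℝ)))
      + (Real.cos (-θ)) • ((ContinuousLinearMap.snd ℝ ℝ ℝ).comp
        (ContinuousLinearMap.snd ℝ ℝ (ℝ × ℝ)))))

lemma PG_L_apply (θ : ℝ) (z : ℝ × ℝ × ℝ) : PG_L θ z = (z.1, rot (-θ) z.2) := by
  simp [PG_L, rot]

lemma PG_inner (f : ℝ × ℝ × ℝ → ℝ) (z : ℝ × ℝ × ℝ) (u v : ℝ) :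
    fderiv ℝ f z (0, u, v) = u * dx f z + v * dy f z := by
  have h : ((0, u, v) : ℝ × ℝ × ℝ) = u • ((0, 1, 0) : ℝ × ℝ × ℝ) + v • ((0, 0, 1) : ℝ × ℝ × ℝ) := by
    simp
  rw [h, map_add, map_smul, map_smul]
  rfl

lemma PG_rotrot (θ r : ℝ) : rot (-θ) (rot θ (r, 0)) = (r, 0) := by
  have h := Real.sin_sq_add_cos_sq θ
  simp only [rot, Real.cos_neg, Real.sin_neg, Prod.mk.injEq]
  constructor
  · linear_combination r * h
  · ring

lemma PG_norm (θ r : ℝ) : (rot θ (r, 0)).1 ^ 2 + (rot θ (r, 0)).2 ^ 2 = r ^ 2 := by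
  have h := Real.sin_sq_add_cos_sq θ
  simp only [rot]
  linear_combination r ^ 2 * h

lemma PG_ringOpen (ρ R : ℝ) : IsOpen (Ring ρ R) := by
  have h1 : IsOpen {q : ℝ × ℝ | ρ ^ 2 < q.1 ^ 2 + q.2 ^ 2} :=
    isOpen_lt continuous_const (by fun_prop)
  have h2 : IsOpen {q : ℝ × ℝ | q.1 ^ 2 + q.2 ^ 2 < R ^ 2} :=
    isOpen_lt (by fun_prop) continuous_const
  exact h1.inter h2

lemma PG_lim (F G : ℝ → ℝ) (ρ R : ℝ) (hR : ρ < R) (hF : Continuous F) (hG : Continuous G)
    (h : ∀ r, ρ < r → r < R → F r = G r) : F ρ = G ρ := by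
  have h1 : Tendsto F (𝓝[>] ρ) (𝓝 (F ρ)) := (hF.tendsto ρ).mono_left nhdsWithin_le_nhds
  have h2 : Tendsto G (𝓝[>] ρ) (𝓝 (G ρ)) := (hG.tendsto ρ).mono_left nhdsWithin_le_nhds
  have h3 : G =ᶠ[𝓝[>] ρ] F := by
    filter_upwards [Ioo_mem_nhdsGT hR] with r hr
    exact (h r hr.1 hr.2).symm
  exact tendsto_nhds_unique (h1) (h2.congr' h3)

/-- The chain rule for a rotated pair. -/
lemma PG_chain (a b : ℝ × ℝ × ℝ → ℝ) (ha : Differentiable ℝ a) (hb : Differentiable ℝ b)
    (f : ℝ × ℝ × ℝ → ℝ) (θ p q : ℝ) (z : ℝ × ℝ × ℝ)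
    (h : f =ᶠ[𝓝 z] fun z => p * a (z.1, rot (-θ) z.2) + q * b (z.1, rot (-θ) z.2)) :
    dx f z = p * (Real.cos θ * dx a (z.1, rot (-θ) z.2) - Real.sin θ * dy a (z.1, rot (-θ) z.2))
      + q * (Real.cos θ * dx b (z.1, rot (-θ) z.2) - Real.sin θ * dy b (z.1, rot (-θ) z.2)) ∧
    dy f z = p * (Real.sin θ * dx a (z.1, rot (-θ) z.2) + Real.cos θ * dy a (z.1, rot (-θ) z.2))
      + q * (Real.sin θ * dx b (z.1, rot (-θ) z.2) + Real.cos θ * dy b (z.1, rot (-θ) z.2)) := by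
  have h1 : HasFDerivAt (fun z => a (PG_L θ z)) ((fderiv ℝ a (PG_L θ z)).comp (PG_L θ)) z :=
    (ha (PG_L θ z)).hasFDerivAt.comp z (PG_L θ).hasFDerivAt
  have h2 : HasFDerivAt (fun z => b (PG_L θ z)) ((fderiv ℝ b (PG_L θ z)).comp (PG_L θ)) z :=
    (hb (PG_L θ z)).hasFDerivAt.comp z (PG_L θ).hasFDerivAt
  have h3 : HasFDerivAt (fun z => p * a (PG_L θ z) + q * b (PG_L θ z))
      (p • ((fderiv ℝ a (PG_L θ z)).comp (PG_L θ)) + q • ((fderiv ℝ b (PG_L θ z)).comp (PG_L θ))) z :=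
    (h1.const_mul p).add (h2.const_mul q)
  have h4 : HasFDerivAt f
      (p • ((fderiv ℝ a (PG_L θ z)).comp (PG_L θ)) + q • ((fderiv ℝ b (PG_L θ z)).comp (PG_L θ))) z := by
    refine h3.congr_of_eventuallyEq (h.trans ?_)
    refine Eventually.of_forall fun w => ?_
    simp only [PG_L_apply]
  have e1 : PG_L θ (0, 1, 0) = (0, Real.cos θ, -Real.sin θ) := by
    simp [PG_L_apply, rot]
  have e2 : PG_L θ (0, 0, 1) = (0, Real.sin θ, Real.cos θ) := by
    simp [PG_L_apply, rot]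
  constructor
  · show fderiv ℝ f z (0, 1, 0) = _
    rw [h4.fderiv]
    simp only [add_apply, smul_apply,
      ContinuousLinearMap.comp_apply, e1, PG_inner, smul_eq_mul, PG_L_apply θ z]
    ring
  · show fderiv ℝ f z (0, 0, 1) = _
    rw [h4.fderiv]
    simp only [add_apply, smul_apply,
      ContinuousLinearMap.comp_apply, e2, PG_inner, smul_eq_mul, PG_L_apply θ z]

lemma PG_circ (Ω : Set (ℝ × ℝ)) (R : ℝ) (h : OuterCircle Ω R) :
    ∀ q ∈ Circ R, q ∈ frontier Ω := by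
  intro q hq
  obtain ⟨hR, hins, r, hr0, hrR, hring⟩ := h
  have hq' : q.1 ^ 2 + q.2 ^ 2 = R ^ 2 := hq
  have hnot : q ∉ Ω := by
    intro hmem
    have := hins q hmem
    linarith
  have hcl : q ∈ closure Ω := by
    have hc : Tendsto (fun s : ℝ => (s * q.1, s * q.2)) (𝓝[<] 1) (𝓝 q) := by
      have h0 : Continuous (fun s : ℝ => (s * q.1, s * q.2)) := by fun_prop
      have h1 := h0.tendsto 1
      simp only [one_mul] at h1
      exact h1.mono_left nhdsWithin_le_nhds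
    refine mem_closure_of_tendsto hc ?_
    have hlt : r / R < 1 := (div_lt_one hR).mpr hrR
    filter_upwards [Ioo_mem_nhdsLT hlt] with s hs
    apply hring
    have hs0 : r / R < s := hs.1
    have hs1 : s < 1 := hs.2
    have hsp : 0 < s := lt_of_le_of_lt (div_nonneg hr0 hR.le) hs0
    have hrs : r < s * R := (div_lt_iff₀ hR).mp hs0
    have hn : (s * q.1) ^ 2 + (s * q.2) ^ 2 = (s * R) ^ 2 := by
      linear_combination s ^ 2 * hq'
    show r ^ 2 < (s * q.1) ^ 2 + (s * q.2) ^ 2 ∧ (s * q.1) ^ 2 + (s * q.2) ^ 2 < R ^ 2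
    rw [hn]
    constructor
    · exact pow_lt_pow_left₀ hrs hr0 (by norm_num)
    · have : s * R < R := by nlinarith
      exact pow_lt_pow_left₀ this (by positivity) (by norm_num)
  refine ⟨hcl, ?_⟩
  intro hint
  exact hnot (interior_subset hint)

theorem PG (hRR : RR_stmt) : PG_stmt := by
  intro Ω ν R t1 G a1 b1 a2 b2 a b m n hCD ρ hρ hρR hSw t ht θ
  have ca : ContDiff ℝ 3 a := by rw [hCD.ha]; exact hCD.ca1.sub hCD.ca2
  have cb : ContDiff ℝ 3 b := by rw [hCD.hb]; exact hCD.cb1.sub hCD.cb2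
  have da : Differentiable ℝ a := ca.differentiable (by norm_num)
  have db : Differentiable ℝ b := cb.differentiable (by norm_num)
  have hdxa : ∀ z, dx a z = dx a1 z - dx a2 z := by
    intro z
    have := (hCD.ca1.differentiable (by norm_num) z).hasFDerivAt.sub
      (hCD.ca2.differentiable (by norm_num) z).hasFDerivAt
    have e : fderiv ℝ a z = fderiv ℝ a1 z - fderiv ℝ a2 z := by
      rw [hCD.ha]; exact this.fderiv
    simp only [dx, e, sub_apply]
  have hdyb : ∀ z, dy b z = dy b1 z - dy b2 z := by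
    intro z
    have := (hCD.cb1.differentiable (by norm_num) z).hasFDerivAt.sub
      (hCD.cb2.differentiable (by norm_num) z).hasFDerivAt
    have e : fderiv ℝ b z = fderiv ℝ b1 z - fderiv ℝ b2 z := by
      rw [hCD.hb]; exact this.fderiv
    simp only [dy, e, sub_apply]
  have hdiv : ∀ q ∈ Ring ρ R, dx a (t, q) + dy b (t, q) = 0 := by
    intro q hq
    have h1 := hCD.d1 t q (hSw.1 hq)
    have h2 := hCD.d2 t q (hSw.1 hq)
    rw [hdxa, hdyb]; linarith
  have hz : ∀ q ∈ Circ R, a (t, q) = 0 ∧ b (t, q) = 0 := by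
    intro q hq
    have hf := PG_circ Ω R hCD.oc q hq
    have h1 := hCD.z1 t q hf
    have h2 := hCD.z2 t q hf
    rw [hCD.ha, hCD.hb]
    simp [h1.1, h1.2, h2.1, h2.2]
  have hRI : RI {t} (Ring ρ R) a b := by
    intro α s hs q hq
    rw [mem_singleton_iff] at hs
    subst hs
    exact hSw.2.2 α s ht q hq
  have hmain := hRR R ρ t a b hρ.le hρR (ca.of_le (by norm_num)) (cb.of_le (by norm_num)) hRI hdiv hz
  have hex : (((ρ + R) / 2, 0) : ℝ × ℝ) ∈ Ring ρ R := by
    show ρ ^ 2 < ((ρ + R) / 2) ^ 2 + (0:ℝ) ^ 2 ∧ ((ρ + R) / 2) ^ 2 + (0:ℝ) ^ 2 < R ^ 2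
    constructor <;> nlinarith
  have hax : ∀ r, ρ < r → r < R → a (t, (r, 0)) = 0 ∧ dx a (t, (r, 0)) = 0 ∧
      r * dy a (t, (r, 0)) = -b (t, (r, 0)) ∧ dy b (t, (r, 0)) = 0 := by
    have := (hmain _ hex).2.2
    intro r h1 h2
    obtain ⟨p1, p2, p3, p4, -⟩ := this r h1 h2
    exact ⟨p1, p2, p3, p4⟩
  -- formulas at the points of the ring
  have hform : ∀ r, ρ < r → r < R →
      dx a (t, rot θ (r, 0)) = Real.sin θ * Real.cos θ * (b (t, (r, 0)) / r - dx b (t, (r, 0))) ∧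
      dy a (t, rot θ (r, 0))
        = -(Real.sin θ ^ 2 * dx b (t, (r, 0)) + Real.cos θ ^ 2 * (b (t, (r, 0)) / r)) ∧
      dx b (t, rot θ (r, 0))
        = Real.cos θ ^ 2 * dx b (t, (r, 0)) + Real.sin θ ^ 2 * (b (t, (r, 0)) / r) ∧
      dy b (t, rot θ (r, 0)) = Real.sin θ * Real.cos θ * (dx b (t, (r, 0)) - b (t, (r, 0)) / r) := by
    intro r h1 h2
    have hr0 : 0 < r := hρ.trans h1
    obtain ⟨-, p2, p3, p4⟩ := hax r h1 h2
    have p3' : dy a (t, (r, 0)) = -(b (t, (r, 0)) / r) := by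
      field_simp
      linarith
    have hin : rot θ (r, 0) ∈ Ring ρ R := by
      show ρ ^ 2 < (rot θ (r, 0)).1 ^ 2 + (rot θ (r, 0)).2 ^ 2 ∧
        (rot θ (r, 0)).1 ^ 2 + (rot θ (r, 0)).2 ^ 2 < R ^ 2
      rw [PG_norm]
      exact ⟨pow_lt_pow_left₀ h1 hρ.le (by norm_num), pow_lt_pow_left₀ h2 hr0.le (by norm_num)⟩
    have hnb : ∀ᶠ z : ℝ × ℝ × ℝ in 𝓝 (t, rot θ (r, 0)), z.1 < t1 ∧ z.2 ∈ Ring ρ R := by
      have ho : IsOpen {z : ℝ × ℝ × ℝ | z.1 < t1 ∧ z.2 ∈ Ring ρ R} :=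
        (isOpen_lt continuous_fst continuous_const).inter
          ((PG_ringOpen ρ R).preimage continuous_snd)
      exact ho.mem_nhds ⟨ht, hin⟩
    have ea : a =ᶠ[𝓝 (t, rot θ (r, 0))]
        fun z => Real.cos θ * a (z.1, rot (-θ) z.2) + (-Real.sin θ) * b (z.1, rot (-θ) z.2) := by
      filter_upwards [hnb] with z hz'
      have := (hSw.2.2 θ z.1 hz'.1 z.2 hz'.2).1
      simp only [rfa] at this
      rw [show a z = a (z.1, z.2) from rfl, ← this]
      ring
    have eb : b =ᶠ[𝓝 (t, rot θ (r, 0))]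
        fun z => Real.sin θ * a (z.1, rot (-θ) z.2) + Real.cos θ * b (z.1, rot (-θ) z.2) := by
      filter_upwards [hnb] with z hz'
      have := (hSw.2.2 θ z.1 hz'.1 z.2 hz'.2).2
      simp only [rfb] at this
      rw [show b z = b (z.1, z.2) from rfl, ← this]
    obtain ⟨c1, c2⟩ := PG_chain a b da db a θ _ _ _ ea
    obtain ⟨c3, c4⟩ := PG_chain a b da db b θ _ _ _ eb
    simp only [PG_rotrot] at c1 c2 c3 c4
    rw [p2, p3', p4] at c1 c2 c3 c4
    rw [c1, c2, c3, c4]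
    refine ⟨by ring, by ring, by ring, by ring⟩
  -- continuity
  have cdxa : Continuous (dx a) := by
    have := ca.continuous_fderiv (by norm_num)
    exact this.clm_apply continuous_const
  have cdya : Continuous (dy a) := by
    have := ca.continuous_fderiv (by norm_num)
    exact this.clm_apply continuous_const
  have cdxb : Continuous (dx b) := by
    have := cb.continuous_fderiv (by norm_num)
    exact this.clm_apply continuous_const
  have cdyb : Continuous (dy b) := by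
    have := cb.continuous_fderiv (by norm_num)
    exact this.clm_apply continuous_const
  have crot : Continuous (fun r : ℝ => ((t, rot θ (r, 0)) : ℝ × ℝ × ℝ)) := by
    simp only [rot]
    fun_prop
  have cax : Continuous (fun r : ℝ => ((t, (r, 0)) : ℝ × ℝ × ℝ)) := by fun_prop
  have k1 := cdxa.comp crot
  have k2 := cdya.comp crot
  have k3 := cdxb.comp crot
  have k4 := cdyb.comp crot
  have k5 := cdxb.comp cax
  have k6 := cb.continuous.comp cax
  have hρ0 : ρ ≠ 0 := hρ.ne'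
  refine ⟨?_, ?_, ?_, ?_⟩
  · have := PG_lim (fun r => r * dx a (t, rot θ (r, 0)))
      (fun r => Real.sin θ * Real.cos θ * (b (t, (r, 0)) - r * dx b (t, (r, 0)))) ρ R hρR
      (continuous_id.mul k1) (continuous_const.mul (k6.sub (continuous_id.mul k5))) (by
        intro r h1 h2
        have hr0 : r ≠ 0 := (hρ.trans h1).ne'
        simp only [(hform r h1 h2).1]
        field_simp)
    field_simp
    linarith
  · have := PG_lim (fun r => r * dy a (t, rot θ (r, 0)))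
      (fun r => -(Real.sin θ ^ 2 * (r * dx b (t, (r, 0))) + Real.cos θ ^ 2 * (b (t, (r, 0))))) ρ R hρR
      (continuous_id.mul k2) ((continuous_const.mul (continuous_id.mul k5)).add
        (continuous_const.mul k6)).neg (by
        intro r h1 h2
        have hr0 : r ≠ 0 := (hρ.trans h1).ne'
        simp only [(hform r h1 h2).2.1]
        field_simp)
    field_simp
    linarith
  · have := PG_lim (fun r => r * dx b (t, rot θ (r, 0)))
      (fun r => Real.cos θ ^ 2 * (r * dx b (t, (r, 0))) + Real.sin θ ^ 2 * (b (t, (r, 0)))) ρ R hρR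
      (continuous_id.mul k3) ((continuous_const.mul (continuous_id.mul k5)).add
        (continuous_const.mul k6)) (by
        intro r h1 h2
        have hr0 : r ≠ 0 := (hρ.trans h1).ne'
        simp only [(hform r h1 h2).2.2.1]
        field_simp)
    field_simp
    linarith
  · have := PG_lim (fun r => r * dy b (t, rot θ (r, 0)))
      (fun r => Real.sin θ * Real.cos θ * (r * dx b (t, (r, 0)) - b (t, (r, 0)))) ρ R hρR
      (continuous_id.mul k4) (continuous_const.mul ((continuous_id.mul k5).sub k6)) (by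
        intro r h1 h2
        have hr0 : r ≠ 0 := (hρ.trans h1).ne'
        simp only [(hform r h1 h2).2.2.2]
        field_simp)
    field_simp
    linarith

end NS
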