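import Pool.Agent.helper29.NS.SpecE

/-!
# Module ns:TQA
-/

namespace NS

open MeasureTheory Filter Topology Set

/-- a segment from inside to outside meets the frontier -/
theorem TQA_cross {Ω : Set (ℝ × ℝ)} (hΩ : IsOpen Ω) {x y : ℝ × ℝ} (hx : x ∈ Ω) (hy : y ∉ Ω) :
    ∃ z ∈ segment ℝ x y, z ∈ frontier Ω := by
  by_contra hcon
  push Not at hcon
  have hsub : segment ℝ x y ⊆ Ω ∪ (closure Ω)ᶜ := by
    intro z hz
    by_cases hzΩ : z ∈ Ω
    · exact Or.inl hzΩ
    · refine Or.inr fun hzc => hcon z hz ?_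
      rw [frontier, hΩ.interior_eq]
      exact ⟨hzc, hzΩ⟩
  have hyc : y ∈ (closure Ω)ᶜ := fun hyc => hcon y (right_mem_segment ℝ x y) (by
    rw [frontier, hΩ.interior_eq]
    exact ⟨hyc, hy⟩)
  obtain ⟨z, -, hz1, hz2⟩ := (convex_segment (𝕜 := ℝ) x y).isPreconnected Ω (closure Ω)ᶜ hΩ
    isClosed_closure.isOpen_compl hsub ⟨x, left_mem_segment ℝ x y, hx⟩
    ⟨y, right_mem_segment ℝ x y, hyc⟩
  exact hz2 (subset_closure hz1)

/-- The function cut off outside `Ω` is Lipschitz. -/
theorem TQA_lip {Ω : Set (ℝ × ℝ)} (hΩ : IsOpen Ω) {F : ℝ × ℝ → ℝ} {C : NNReal}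
    (hF : LipschitzWith C F)
    (h0 : ∀ q ∈ frontier Ω, F q = 0) : LipschitzWith C (Ω.indicator F) := by
  have key : ∀ x ∈ Ω, ∀ y ∉ Ω, dist (F x) 0 ≤ C * dist x y := by
    intro x hx y hy
    obtain ⟨z, hz, hzf⟩ := TQA_cross hΩ hx hy
    have h1 := hF.dist_le_mul x z
    rw [h0 z hzf] at h1
    have h2 : dist x z ≤ dist x y := by
      have := dist_add_dist_of_mem_segment hz
      linarith [dist_nonneg (x := z) (y := y)]
    exact h1.trans (mul_le_mul_of_nonneg_left h2 C.2)
  refine LipschitzWith.of_dist_le_mul fun x y => ?_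
  by_cases hx : x ∈ Ω <;> by_cases hy : y ∈ Ω
  · rw [indicator_of_mem hx, indicator_of_mem hy]
    exact hF.dist_le_mul x y
  · rw [indicator_of_mem hx, indicator_of_notMem hy]
    exact key x hx y hy
  · rw [indicator_of_notMem hx, indicator_of_mem hy, dist_comm, dist_comm x y]
    exact key y hy x hx
  · rw [indicator_of_notMem hx, indicator_of_notMem hy, dist_self]
    positivity

/-- Zeros with nonzero derivative are isolated, so there are countably many. -/
theorem TQA_countable (h : ℝ → ℝ) : {t | h t = 0 ∧ deriv h t ≠ 0}.Countable := by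
  set S := {t | h t = 0 ∧ deriv h t ≠ 0} with hS
  have hd : DiscreteTopology S := by
    rw [discreteTopology_subtype_iff]
    rintro x ⟨-, hx⟩
    rw [Filter.inf_principal_eq_bot]
    have h1 : HasDerivAt h (deriv h x) x := (differentiableAt_of_deriv_ne_zero hx).hasDerivAt
    filter_upwards [h1.eventually_ne hx (c := 0)] with z hz hzS
    exact hz hzS.1
  have : Countable S := TopologicalSpace.separableSpace_iff_countable.mp inferInstance
  exact Set.countable_coe_iff.mp this

/-- The derivative is zero almost everywhere on the zero set. -/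
theorem TQA_zero {g : ℝ × ℝ → ℝ} (hg : Continuous g) (v : ℝ × ℝ) :
    ∀ᵐ x, g x = 0 → lineDeriv ℝ g x v = 0 := by
  have hmeas : MeasurableSet {x : ℝ × ℝ | g x = 0 → lineDeriv ℝ g x v = 0} := by
    have h1 : MeasurableSet {x : ℝ × ℝ | g x = 0} := hg.measurable (measurableSet_singleton 0)
    have h2 : MeasurableSet {x : ℝ × ℝ | lineDeriv ℝ g x v = 0} :=
      (measurable_lineDeriv hg) (measurableSet_singleton 0)
    have h3 : {x : ℝ × ℝ | g x = 0 → lineDeriv ℝ g x v = 0} =
        {x : ℝ × ℝ | g x = 0}ᶜ ∪ {x : ℝ × ℝ | lineDeriv ℝ g x v = 0} := by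
      ext x
      show (g x = 0 → lineDeriv ℝ g x v = 0) ↔ (¬ g x = 0 ∨ lineDeriv ℝ g x v = 0)
      tauto
    rw [h3]
    exact h1.compl.union h2
  refine MeasureTheory.ae_mem_of_ae_add_linearMap_mem (LinearMap.toSpanSingleton ℝ (ℝ × ℝ) v)
    volume volume hmeas (fun y => ?_)
  have hc := TQA_countable (fun t => g (y + t • v))
  filter_upwards [hc.ae_notMem volume] with t ht
  intro h0
  by_contra hne
  refine ht ⟨h0, ?_⟩
  have e : lineDeriv ℝ g (y + t • v) v = deriv (fun t => g (y + t • v)) t := by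
    unfold lineDeriv
    have h4 : (fun s : ℝ => g (y + t • v + s • v)) = fun s => (fun t => g (y + t • v)) (t + s) := by
      funext s
      show g (y + t • v + s • v) = g (y + (t + s) • v)
      rw [add_smul, add_assoc]
    rw [h4]
    have h5 := deriv_comp_const_add (fun t => g (y + t • v)) t 0
    rw [add_zero] at h5
    exact h5
  rw [← e]
  exact hne

theorem TQA_main {Ω : Set (ℝ × ℝ)} {f : ℝ × ℝ → ℝ} (hΩ : IsOpen Ω) (hb : Bornology.IsBounded Ω)
    (hf : ContDiff ℝ 1 f) (h0 : ∀ q ∈ frontier Ω, f q = 0) (v : ℝ × ℝ) :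
    ∫ q in Ω, fderiv ℝ f q v = 0 := by
  obtain ⟨R, hR⟩ := hb.closure.subset_closedBall (0 : ℝ × ℝ)
  let χ : ContDiffBump (0 : ℝ × ℝ) := ⟨max R 1, max R 1 + 1, by positivity, by linarith⟩
  have hχ1 : ∀ q ∈ closure Ω, χ q = 1 := fun q hq =>
    χ.one_of_mem_closedBall (Metric.closedBall_subset_closedBall (le_max_left _ _) (hR hq))
  set F : ℝ × ℝ → ℝ := fun q => χ q * f q with hF
  have hFd : ContDiff ℝ 1 F := (χ.contDiff (n := 1)).mul hf
  have hFc : HasCompactSupport F := χ.hasCompactSupport.mul_right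
  obtain ⟨C, hC⟩ := hFd.lipschitzWith_of_hasCompactSupport hFc (by norm_num)
  have hF0 : ∀ q ∈ frontier Ω, F q = 0 := fun q hq => by
    show χ q * f q = 0
    rw [h0 q hq, mul_zero]
  have hFΩ : ∀ q ∈ Ω, F q = f q := fun q hq => by
    show χ q * f q = f q
    rw [hχ1 q (subset_closure hq), one_mul]
  have hg := TQA_lip hΩ hC hF0
  have hgc : HasCompactSupport (Ω.indicator F) := hFc.mono (by
    rw [Set.support_indicator]
    exact inter_subset_right)
  have ibp := (LipschitzWith.const (1 : ℝ) : LipschitzWith 0 (fun _ : ℝ × ℝ => (1 : ℝ))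
    ).integral_lineDeriv_mul_eq (μ := (volume : Measure (ℝ × ℝ))) hg hgc (-v)
  have hae : (fun x => lineDeriv ℝ (Ω.indicator F) x v) =ᵐ[volume]
      Ω.indicator (fun q => fderiv ℝ f q v) := by
    filter_upwards [TQA_zero hg.continuous v] with x hx
    by_cases hxΩ : x ∈ Ω
    · rw [indicator_of_mem hxΩ]
      have h1 : Ω.indicator F =ᶠ[𝓝 x] f := by
        filter_upwards [hΩ.mem_nhds hxΩ] with q hq
        rw [indicator_of_mem hq, hFΩ q hq]
      rw [h1.lineDeriv_eq, ((hf.differentiable (by norm_num)) x).lineDeriv_eq_fderiv]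
    · rw [indicator_of_notMem hxΩ]
      exact hx (indicator_of_notMem hxΩ _)
  rw [← integral_indicator hΩ.measurableSet, ← integral_congr_ae hae]
  have h2 : ∀ x : ℝ × ℝ, lineDeriv ℝ (fun _ : ℝ × ℝ => (1 : ℝ)) x (-v) = 0 := fun x => by
    simp [lineDeriv]
  simp only [h2, zero_mul, integral_zero, neg_neg, mul_one] at ibp
  exact ibp.symm

/-- TQA -/
theorem TQA : TQA_stmt := by
  intro Ω f hΩ hb hf h0
  exact ⟨TQA_main hΩ hb hf h0 (1, 0), TQA_main hΩ hb hf h0 (0, 1)⟩

end NS
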